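import Pool.Agent.X86.HA.Def

/-! # `Re P_{α,β} ≥ 0` on the unit disc -/

set_option autoImplicit false

open Complex

namespace Pool.Agent.Results.MP_54ed65_an.RePos

open Pool.Agent.X86.HA

lemma one_sub_ne {z : ℂ} (hz : ‖z‖ < 1) : 1 - z ≠ 0 := by
  intro h
  rw [← sub_eq_zero.mp h] at hz
  simp at hz

lemma one_add_ne {z : ℂ} (hz : ‖z‖ < 1) : 1 + z ≠ 0 := by
  intro h
  have : z = -1 := by linear_combination h
  rw [this] at hz
  simp at hz

lemma re_W {z : ℂ} (hz : ‖z‖ < 1) :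
    ((1 + z) / (1 - z)).re = (1 - ‖z‖ ^ 2) / normSq (1 - z) := by
  have h : (1 + z) / (1 - z) = ((1 + z) * (starRingEnd ℂ) (1 - z)) / ((normSq (1 - z) : ℝ) : ℂ) := by
    rw [← mul_conj, mul_div_mul_right]
    rw [Ne, map_eq_zero]
    exact one_sub_ne hz
  rw [h, div_ofReal_re]
  congr 1
  rw [← normSq_eq_norm_sq, normSq_apply]
  simp
  ring

lemma re_W_pos {z : ℂ} (hz : ‖z‖ < 1) : 0 < ((1 + z) / (1 - z)).re := by
  rw [re_W hz]
  have h1 : 0 < normSq (1 - z) := normSq_pos.mpr (one_sub_ne hz)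
  have h2 : ‖z‖ ^ 2 < 1 := by
    have := norm_nonneg z
    nlinarith
  apply div_pos _ h1
  linarith

/-- `(1 + r²) · 2 Re W = (1 - r²) (|W|² + 1)`. -/
lemma key_id {z : ℂ} (hz : ‖z‖ < 1) :
    (1 + ‖z‖ ^ 2) * (2 * ((1 + z) / (1 - z)).re)
      = (1 - ‖z‖ ^ 2) * (‖(1 + z) / (1 - z)‖ ^ 2 + 1) := by
  have h1 : 0 < normSq (1 - z) := normSq_pos.mpr (one_sub_ne hz)
  rw [re_W hz, norm_div, div_pow, ← normSq_eq_norm_sq (1 + z), ← normSq_eq_norm_sq (1 - z)]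
  have h2 : normSq (1 + z) + normSq (1 - z) = 2 * (1 + ‖z‖ ^ 2) := by
    rw [← normSq_eq_norm_sq]
    simp only [normSq_apply]
    simp
    ring
  field_simp
  linear_combination -(1 - ‖z‖ ^ 2) * h2

lemma deriv_p (β : ℝ) {z : ℂ} (hz : ‖z‖ < 1) :
    z * deriv (p β) z = (β / 2 : ℝ) * ((1 + z) / (1 - z) - ((1 + z) / (1 - z))⁻¹) * p β z := by
  have h1 := one_sub_ne hz
  have h2 := one_add_ne hz
  have hW : (1 + z) / (1 - z) ∈ slitPlane := Or.inl (re_W_pos hz)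
  have hW0 : (1 + z) / (1 - z) ≠ 0 := slitPlane_ne_zero hW
  have hd : HasDerivAt (fun z : ℂ => (1 + z) / (1 - z)) (2 / (1 - z) ^ 2) z := by
    have h5 : HasDerivAt (fun z : ℂ => 1 + z) 1 z := (hasDerivAt_id z).const_add 1
    have h6 : HasDerivAt (fun z : ℂ => 1 - z) (-1) z := (hasDerivAt_id z).const_sub 1
    refine (h5.div h6 h1).congr_deriv ?_
    congr 1
    ring
  have h3 : HasDerivAt (p β) ((β : ℂ) * ((1 + z) / (1 - z)) ^ ((β : ℂ) - 1) * (2 / (1 - z) ^ 2)) z :=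
    hd.cpow_const hW
  rw [h3.deriv, cpow_sub _ _ hW0, cpow_one]
  unfold p
  have e : (β : ℂ) * (((1 + z) / (1 - z)) ^ (β : ℂ) / ((1 + z) / (1 - z))) * (2 / (1 - z) ^ 2)
      = (((1 + z) / (1 - z)) ^ (β : ℂ)) * ((β : ℂ) * (((1 + z) / (1 - z)))⁻¹ * (2 / (1 - z) ^ 2)) := by
    ring
  rw [e]
  have e2 : z * ((β : ℂ) * (((1 + z) / (1 - z)))⁻¹ * (2 / (1 - z) ^ 2))
      = ((β / 2 : ℝ) : ℂ) * ((1 + z) / (1 - z) - ((1 + z) / (1 - z))⁻¹) := by
    push_cast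
    field_simp
    ring
  linear_combination (((1 + z) / (1 - z)) ^ (β : ℂ)) * e2

/-- The termwise inequality behind the result. -/
lemma termwise {φ β : ℝ} (hφ : |φ| < Real.pi / 2) (hβ : 0 < β) (hβ1 : β < 1) :
    0 ≤ Real.sin φ ^ 2 * Real.cos (φ * β) - Real.cos φ * Real.sin (φ * β) * Real.sin φ := by
  have h1 : Real.sin φ ^ 2 * Real.cos (φ * β) - Real.cos φ * Real.sin (φ * β) * Real.sin φ
      = Real.sin φ * Real.sin (φ * (1 - β)) := by
    rw [show φ * (1 - β) = φ - φ * β by ring, Real.sin_sub]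
    ring
  rw [h1]
  rw [abs_lt] at hφ
  have hpi := Real.pi_pos
  rcases le_total 0 φ with h | h
  · refine mul_nonneg (Real.sin_nonneg_of_nonneg_of_le_pi h (by linarith))
      (Real.sin_nonneg_of_nonneg_of_le_pi (mul_nonneg h (by linarith)) ?_)
    nlinarith
  · refine mul_nonneg_of_nonpos_of_nonpos (Real.sin_nonpos_of_nonpos_of_neg_pi_le h (by linarith))
      (Real.sin_nonpos_of_nonpos_of_neg_pi_le (mul_nonpos_of_nonpos_of_nonneg h (by linarith)) ?_)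
    nlinarith

lemma re_calc (c1 c2 b R C S a s ρ τ : ℝ) :
    ((c1 : ℂ) * (((R * C : ℝ) : ℂ) + ((R * S : ℝ) : ℂ) * I)
      + (c2 : ℂ) * ((b : ℂ) * ((((ρ * a : ℝ) : ℂ) + ((ρ * s : ℝ) : ℂ) * I)
        - (((τ * a : ℝ) : ℂ) - ((τ * s : ℝ) : ℂ) * I))
        * (((R * C : ℝ) : ℂ) + ((R * S : ℝ) : ℂ) * I))).re
      = R * (c1 * C + c2 * b * (ρ * (C * a - S * s) - τ * (C * a + S * s))) := by
  simp
  ring

/-- **Affirmative answer.** For `0 < α < 2/3` and `0 < β ≤ α / (2 (1 - α))` one has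
`Re P_{α,β}(z) ≥ 0` for all `|z| < 1`. -/
theorem _root_.Pool.Agent.Results.MP_54ed65_an.RePos.result (α β : ℝ) (hα : 0 < α)
    (hα1 : α < 2 / 3) (hβ : 0 < β) (hβα : β ≤ α / (2 * (1 - α))) (z : ℂ) (hz : ‖z‖ < 1) :
    0 ≤ (P α β z).re := by
  have hm : 0 < 1 - α := by linarith
  have hβ2 : β * (2 * (1 - α)) ≤ α := (le_div_iff₀ (by linarith)).mp hβα
  have hβ1 : β < 1 := by nlinarith
  have hr : 0 < 1 - ‖z‖ ^ 2 := by
    have := norm_nonneg z
    nlinarith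
  set W : ℂ := (1 + z) / (1 - z) with hW
  have hre : 0 < W.re := re_W_pos hz
  have hW0 : W ≠ 0 := by
    intro h
    rw [h] at hre
    simp at hre
  set ρ : ℝ := ‖W‖ with hρ
  have hρ0 : 0 < ρ := norm_pos_iff.mpr hW0
  set φ : ℝ := arg W with hφ
  have hφ1 : |φ| < Real.pi / 2 := abs_arg_lt_pi_div_two_iff.mpr (Or.inl hre)
  have hWre : W.re = ρ * Real.cos φ := (norm_mul_cos_arg W).symm
  have hWim : W.im = ρ * Real.sin φ := (norm_mul_sin_arg W).symm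
  have ha : 0 < Real.cos φ := by
    rw [hWre] at hre
    exact (pos_iff_pos_of_mul_pos hre).mp hρ0
  have hC : 0 < Real.cos (φ * β) := by
    rw [abs_lt] at hφ1
    apply Real.cos_pos_of_mem_Ioo
    constructor <;> nlinarith [Real.pi_pos]
  have hid := key_id hz
  rw [← hW, hWre, ← hρ] at hid
  have ht := termwise hφ1 hβ hβ1
  set a := Real.cos φ with hadef
  set s := Real.sin φ with hsdef
  set C := Real.cos (φ * β) with hCdef
  set S := Real.sin (φ * β) with hSdef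
  have hone : s ^ 2 + a ^ 2 = 1 := Real.sin_sq_add_cos_sq φ
  -- the real part
  have hP : (P α β z).re = ρ ^ β * ((α * ‖z‖ ^ 2 + (1 - α) * (1 - ‖z‖ ^ 2)) * C
      + (1 - α) * (1 - ‖z‖ ^ 2) * (β / 2) *
        (ρ * (C * a - S * s) - ρ⁻¹ * (C * a + S * s))) := by
    unfold P
    rw [deriv_p β hz]
    have hp : p β z = ((ρ ^ β * C : ℝ) : ℂ) + ((ρ ^ β * S : ℝ) : ℂ) * I := by
      show W ^ (β : ℂ) = _
      rw [cpow_ofReal, ← hρ, ← hφ, ← hCdef, ← hSdef]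
      push_cast
      ring
    have hWi : W⁻¹ = ((ρ⁻¹ * a : ℝ) : ℂ) - ((ρ⁻¹ * s : ℝ) : ℂ) * I := by
      apply Complex.ext
      · rw [inv_re, normSq_eq_norm_sq, ← hρ, hWre]
        simp
        field_simp
      · rw [inv_im, normSq_eq_norm_sq, ← hρ, hWim]
        simp
        field_simp
    have hWe : W = ((ρ * a : ℝ) : ℂ) + ((ρ * s : ℝ) : ℂ) * I := by
      rw [← hWre, ← hWim, re_add_im]
    rw [← hW, hp, hWi, hWe]
    exact re_calc _ _ _ _ _ _ _ _ _ _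
  rw [hP]
  refine mul_nonneg (Real.rpow_nonneg hρ0.le β) ?_
  -- the lower bound for the first coefficient
  have h1 : (1 - α) * ((1 - β) * (1 - ‖z‖ ^ 2) + β * (1 + ‖z‖ ^ 2))
      ≤ α * ‖z‖ ^ 2 + (1 - α) * (1 - ‖z‖ ^ 2) := by
    have := mul_le_mul_of_nonneg_right hβ2 (sq_nonneg ‖z‖)
    nlinarith
  have h2 := mul_le_mul_of_nonneg_right h1 hC.le
  -- the remaining part
  have h3 : 0 ≤ β * (1 + ‖z‖ ^ 2) * C
      + (1 - ‖z‖ ^ 2) * (β / 2) * (ρ * (C * a - S * s) - ρ⁻¹ * (C * a + S * s)) := by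
    have h4 : (1 + ‖z‖ ^ 2) = (1 - ‖z‖ ^ 2) * (ρ ^ 2 + 1) / (2 * (ρ * a)) := by
      rw [eq_div_iff (by positivity)]
      exact hid
    rw [h4]
    have h5 : β * ((1 - ‖z‖ ^ 2) * (ρ ^ 2 + 1) / (2 * (ρ * a))) * C
        + (1 - ‖z‖ ^ 2) * (β / 2) * (ρ * (C * a - S * s) - ρ⁻¹ * (C * a + S * s))
        = (1 - ‖z‖ ^ 2) * (β / (2 * (ρ * a))) *
          (ρ ^ 2 * (C * (1 + a ^ 2) - a * S * s) + (C * (1 - a ^ 2) - a * S * s)) := by
      field_simp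
      ring
    rw [h5]
    have h6 : 0 ≤ C * (1 - a ^ 2) - a * S * s := by
      have : C * (1 - a ^ 2) = s ^ 2 * C := by linear_combination -C * hone
      rw [this]
      exact ht
    have h7 : 0 ≤ C * (1 + a ^ 2) - a * S * s := by
      nlinarith [mul_nonneg hC.le (sq_nonneg a)]
    positivity
  have h8 : 0 ≤ (1 - β) * (1 - ‖z‖ ^ 2) * C :=
    mul_nonneg (mul_nonneg (by linarith) hr.le) hC.le
  have h9 := mul_nonneg hm.le h3
  have h10 := mul_nonneg hm.le h8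
  nlinarith

end Pool.Agent.Results.MP_54ed65_an.RePos
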